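import Mathlib

set_option linter.unusedSimpArgs false
set_option linter.unusedVariables false
set_option linter.unusedSectionVars false

open Set Filter Topology MeasureTheory

namespace Pool.Agent.Results.MP_5288f0_an.Merging

/-! ### Definitions used in the statement -/

/-- The constant density `(α t)^(-1/α)` on the inner part `(ρ₁, S₁(t))`. -/
noncomputable def vortexDensity (α t : ℝ) : ℝ := (α * t) ^ (-(1 / α))

/-- The density in the rarefaction fan issued from `ρ₂`, for `ρ > ρ₂`. -/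
noncomputable def fanDensity (α ρ₂ m₁ t ρ : ℝ) : ℝ :=
  (((ρ - ρ₂) / (α * m₁ * t)) ^ (-(α / (α - 1))) + α * t) ^ (-(1 / α))

/-- The density at time `t` of the two-bump ansatz with shocks `S₁`, `S₂`:
the vortex density on `(ρ₁, S₁(t))`, the fan density at the points of `(S₁(t), S₂(t))` to the right
of `ρ₂`, and zero elsewhere. -/
noncomputable def density (α ρ₁ ρ₂ m₁ : ℝ) (S₁ S₂ : ℝ → ℝ) (t ρ : ℝ) : ℝ :=
  if ρ₁ < ρ ∧ ρ < S₁ t then vortexDensity α t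
  else if ρ₂ < ρ ∧ S₁ t < ρ ∧ ρ < S₂ t then fanDensity α ρ₂ m₁ t ρ
  else 0

/-- The mass `m(t, ρ) = ∫₀^ρ u(t, r) dr`. -/
noncomputable def mass (α ρ₁ ρ₂ m₁ : ℝ) (S₁ S₂ : ℝ → ℝ) (t ρ : ℝ) : ℝ :=
  ∫ r in (0 : ℝ)..ρ, density α ρ₁ ρ₂ m₁ S₁ S₂ t r

/-- The Rankine–Hugoniot condition at time `t` for the shock `S` of the density `u` with mass `m`:
`S'(t) = m(t, S(t)) (u(t, S⁺)^α - u(t, S⁻)^α) / (u(t, S⁺) - u(t, S⁻))`. -/
def RankineHugoniot (α : ℝ) (u m : ℝ → ℝ → ℝ) (S : ℝ → ℝ) (t : ℝ) : Prop :=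
  ∃ ul ur : ℝ, Tendsto (u t) (𝓝[<] (S t)) (𝓝 ul) ∧ Tendsto (u t) (𝓝[>] (S t)) (𝓝 ur) ∧
    ul ≠ ur ∧ HasDerivAt S (m t (S t) * ((ur ^ α - ul ^ α) / (ur - ul))) t

/-- `S₁`, `S₂` are the shock curves of the two-bump solution with data
`m₁ δ_{ρ₁} + m₂ δ_{ρ₂}`. -/
structure IsTwoBump (α ρ₁ ρ₂ m₁ m₂ : ℝ) (S₁ S₂ : ℝ → ℝ) : Prop where
  /-- the shocks are continuous curves, -/
  cont₁ : ContinuousOn S₁ (Ici 0)
  cont₂ : ContinuousOn S₂ (Ici 0)
  /-- issued from `ρ₁` and `ρ₂`, -/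
  init₁ : S₁ 0 = ρ₁
  init₂ : S₂ 0 = ρ₂
  /-- moving to the right of their starting points, -/
  gt₁ : ∀ t, 0 < t → ρ₁ < S₁ t
  gt₂ : ∀ t, 0 < t → ρ₂ < S₂ t
  /-- and ordered. -/
  order : ∀ t, 0 ≤ t → S₁ t ≤ S₂ t
  /-- As long as they have not met, both satisfy the Rankine–Hugoniot condition. -/
  rh₁ : ∀ t, 0 < t → (∀ s ∈ Icc 0 t, S₁ s < S₂ s) →
    RankineHugoniot α (density α ρ₁ ρ₂ m₁ S₁ S₂) (mass α ρ₁ ρ₂ m₁ S₁ S₂) S₁ t
  rh₂ : ∀ t, 0 < t → (∀ s ∈ Icc 0 t, S₁ s < S₂ s) →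
    RankineHugoniot α (density α ρ₁ ρ₂ m₁ S₁ S₂) (mass α ρ₁ ρ₂ m₁ S₁ S₂) S₂ t
  /-- The initial datum is `m₁ δ_{ρ₁} + m₂ δ_{ρ₂}`, in terms of the mass function. -/
  init_mass : ∀ ρ, 0 < ρ → ρ ≠ ρ₁ → ρ ≠ ρ₂ →
    Tendsto (fun t => mass α ρ₁ ρ₂ m₁ S₁ S₂ t ρ) (𝓝[>] 0)
      (𝓝 ((if ρ₁ ≤ ρ then m₁ else 0) + (if ρ₂ ≤ ρ then m₂ else 0)))

/-- The merging time. -/
noncomputable def mergingTime (α ρ₁ ρ₂ m₁ m₂ : ℝ) : ℝ :=
  ((ρ₂ - ρ₁) / (m₁ + m₂ -
    ((m₁ + m₂) ^ (α / (α - 1)) - m₁ ^ (α / (α - 1))) ^ ((α - 1) / α))) ^ α / α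

/-! ### Auxiliary functions -/

/-- conjugate exponent -/
noncomputable def q (α : ℝ) : ℝ := α / (α - 1)

lemma one_lt_q {α : ℝ} (hα : 1 < α) : 1 < q α := by
  unfold q
  rw [lt_div_iff₀ (by linarith)]
  linarith

lemma q_pos {α : ℝ} (hα : 1 < α) : 0 < q α := by have := one_lt_q hα; linarith

lemma one_div_q {α : ℝ} (hα : 1 < α) : 1 / q α = (α - 1) / α := by
  unfold q; rw [one_div_div]

lemma q_sub_one {α : ℝ} (hα : 1 < α) : q α - 1 = 1 / (α - 1) := by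
  unfold q
  have : α - 1 ≠ 0 := by linarith
  field_simp
  ring

lemma q_sub_one_mul {α : ℝ} (hα : 1 < α) : (q α - 1) * α = q α := by
  rw [q_sub_one hα]; unfold q
  field_simp

lemma q_sub_one_mul' {α : ℝ} (hα : 1 < α) : (q α - 1) * (α - 1) = 1 := by
  rw [q_sub_one hα]
  have : α - 1 ≠ 0 := by linarith
  field_simp

/-- time scale -/
noncomputable def tau (α t : ℝ) : ℝ := (α * t) ^ (1 / α)

lemma tau_pos {α t : ℝ} (hα : 1 < α) (ht : 0 < t) : 0 < tau α t := by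
  unfold tau; positivity

lemma vortexDensity_eq {α t : ℝ} (hα : 1 < α) (ht : 0 < t) :
    vortexDensity α t = (tau α t)⁻¹ := by
  unfold vortexDensity tau
  rw [Real.rpow_neg (by positivity)]

lemma tau_rpow {α t : ℝ} (hα : 1 < α) (ht : 0 < t) : tau α t ^ α = α * t := by
  unfold tau
  rw [← Real.rpow_mul (by positivity), one_div_mul_cancel (by linarith), Real.rpow_one]

lemma hasDerivAt_tau {α t : ℝ} (hα : 1 < α) (ht : 0 < t) :
    HasDerivAt (tau α) (tau α t ^ (1 - α)) t := by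
  have h1 : HasDerivAt (fun s => α * s) α t := by
    simpa using (hasDerivAt_id t).const_mul α
  have h2 := h1.rpow_const (p := 1 / α) (Or.inl (by positivity))
  refine h2.congr_deriv ?_
  unfold tau
  rw [← Real.rpow_mul (by positivity)]
  have h3 : α ≠ 0 := by linarith
  have : 1 / α * (1 - α) = 1 / α - 1 := by field_simp
  rw [this]
  field_simp

/-- the mass in the fan in the similarity variable `y = (ρ - ρ₂) / tau` -/
noncomputable def B (α m₁ y : ℝ) : ℝ := (m₁ ^ q α + (max y 0) ^ q α) ^ (1 / q α)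

/-- the density in the fan times `tau` in the similarity variable -/
noncomputable def v (α m₁ y : ℝ) : ℝ := (max y 0 / B α m₁ y) ^ (q α - 1)

section
variable {α m₁ : ℝ} (hα : 1 < α) (hm₁ : 0 < m₁)
include hα hm₁

lemma inner_pos (y : ℝ) : 0 < m₁ ^ q α + (max y 0) ^ q α := by
  have h1 : 0 < m₁ ^ q α := Real.rpow_pos_of_pos hm₁ _
  have h2 : 0 ≤ (max y 0) ^ q α := Real.rpow_nonneg (le_max_right _ _) _
  linarith

lemma B_pos (y : ℝ) : 0 < B α m₁ y := by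
  unfold B; exact Real.rpow_pos_of_pos (inner_pos hα hm₁ y) _

lemma B_rpow (y : ℝ) : B α m₁ y ^ q α = m₁ ^ q α + (max y 0) ^ q α := by
  unfold B
  rw [← Real.rpow_mul (inner_pos hα hm₁ y).le, one_div_mul_cancel (q_pos hα).ne', Real.rpow_one]

lemma B_of_nonpos {y : ℝ} (hy : y ≤ 0) : B α m₁ y = m₁ := by
  unfold B
  rw [max_eq_right hy, Real.zero_rpow (q_pos hα).ne', add_zero, ← Real.rpow_mul hm₁.le,
    mul_one_div_cancel (q_pos hα).ne', Real.rpow_one]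

lemma max_lt_B (y : ℝ) : max y 0 < B α m₁ y := by
  have h1 : (max y 0) ^ q α < B α m₁ y ^ q α := by
    rw [B_rpow hα hm₁]
    have : 0 < m₁ ^ q α := Real.rpow_pos_of_pos hm₁ _
    linarith
  exact (Real.rpow_lt_rpow_iff (le_max_right _ _) (B_pos hα hm₁ y).le (q_pos hα)).1 h1

lemma ratio_nonneg (y : ℝ) : 0 ≤ max y 0 / B α m₁ y :=
  div_nonneg (le_max_right _ _) (B_pos hα hm₁ y).le

lemma ratio_lt_one (y : ℝ) : max y 0 / B α m₁ y < 1 := by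
  rw [div_lt_one (B_pos hα hm₁ y)]; exact max_lt_B hα hm₁ y

lemma v_nonneg (y : ℝ) : 0 ≤ v α m₁ y := Real.rpow_nonneg (ratio_nonneg hα hm₁ y) _

lemma v_lt_one (y : ℝ) : v α m₁ y < 1 := by
  unfold v
  apply Real.rpow_lt_one (ratio_nonneg hα hm₁ y) (ratio_lt_one hα hm₁ y)
  have := one_lt_q hα
  linarith

lemma v_of_nonpos {y : ℝ} (hy : y ≤ 0) : v α m₁ y = 0 := by
  unfold v
  rw [max_eq_right hy, zero_div, Real.zero_rpow]
  have := one_lt_q hα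
  linarith

lemma v_rpow (y : ℝ) : v α m₁ y ^ α = (max y 0 / B α m₁ y) ^ q α := by
  unfold v
  rw [← Real.rpow_mul (ratio_nonneg hα hm₁ y), q_sub_one_mul hα]

lemma v_rpow' (y : ℝ) : v α m₁ y ^ (α - 1) = max y 0 / B α m₁ y := by
  unfold v
  rw [← Real.rpow_mul (ratio_nonneg hα hm₁ y), q_sub_one_mul' hα, Real.rpow_one]

lemma v_mul (y : ℝ) : v α m₁ y * y = B α m₁ y * v α m₁ y ^ α := by
  have hB := B_pos hα hm₁ y
  rcases le_or_gt y 0 with hy | hy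
  · rw [v_of_nonpos hα hm₁ hy, Real.zero_rpow (by linarith)]; ring
  · rw [v_rpow hα hm₁]
    unfold v
    rw [max_eq_left hy.le]
    have hr : 0 < y / B α m₁ y := by positivity
    have h1 : (y / B α m₁ y) ^ q α = (y / B α m₁ y) ^ (q α - 1) * (y / B α m₁ y) := by
      conv_lhs => rw [show q α = (q α - 1) + 1 by ring]
      rw [Real.rpow_add hr, Real.rpow_one]
    rw [h1]
    field_simp

lemma hasDerivAt_maxpow (y : ℝ) :
    HasDerivAt (fun y : ℝ => (max y 0) ^ q α) (q α * (max y 0) ^ (q α - 1)) y := by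
  have hq := one_lt_q hα
  have hq1 : q α - 1 ≠ 0 := by linarith
  have hq0 : q α ≠ 0 := by linarith
  rcases lt_trichotomy y 0 with hy | hy | hy
  · rw [max_eq_right hy.le, Real.zero_rpow hq1, mul_zero]
    apply (hasDerivAt_const y (0 : ℝ)).congr_of_eventuallyEq
    filter_upwards [Iio_mem_nhds hy] with z hz
    rw [max_eq_right (le_of_lt hz), Real.zero_rpow hq0]
  · subst hy
    rw [max_self, Real.zero_rpow hq1, mul_zero, ← hasDerivWithinAt_univ, ← Iic_union_Ici (a := (0:ℝ))]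
    apply HasDerivWithinAt.union
    · apply (hasDerivWithinAt_const (0 : ℝ) (Iic 0) (0 : ℝ)).congr
      · intro z hz
        rw [max_eq_right hz, Real.zero_rpow hq0]
      · rw [max_self, Real.zero_rpow hq0]
    · have h := (Real.hasDerivAt_rpow_const (x := 0) (p := q α) (Or.inr hq.le)).hasDerivWithinAt
        (s := Ici 0)
      rw [Real.zero_rpow hq1, mul_zero] at h
      apply h.congr
      · intro z hz
        rw [max_eq_left hz]
      · rw [max_self]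
  · rw [max_eq_left hy.le]
    apply (Real.hasDerivAt_rpow_const (x := y) (p := q α) (Or.inr hq.le)).congr_of_eventuallyEq
    filter_upwards [Ioi_mem_nhds hy] with z hz
    rw [max_eq_left (le_of_lt hz)]

lemma hasDerivAt_B (y : ℝ) : HasDerivAt (B α m₁) (v α m₁ y) y := by
  have hq := one_lt_q hα
  have h1 := (hasDerivAt_maxpow hα hm₁ y).const_add (m₁ ^ q α)
  have h2 := h1.rpow_const (p := 1 / q α) (Or.inl (inner_pos hα hm₁ y).ne')
  refine h2.congr_deriv ?_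
  unfold v
  have hB := B_pos hα hm₁ y
  rw [Real.div_rpow (le_max_right _ _) hB.le]
  have h3 : (m₁ ^ q α + max y 0 ^ q α) ^ (1 / q α - 1) = (B α m₁ y ^ (q α - 1))⁻¹ := by
    unfold B
    rw [← Real.rpow_mul (inner_pos hα hm₁ y).le, ← Real.rpow_neg (inner_pos hα hm₁ y).le]
    congr 1
    have : q α ≠ 0 := by linarith
    field_simp
    ring
  rw [h3]
  have : q α ≠ 0 := by linarith
  field_simp

lemma continuous_B : Continuous (B α m₁) :=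
  continuous_iff_continuousAt.2 fun y => (hasDerivAt_B hα hm₁ y).continuousAt

lemma continuous_v : Continuous (v α m₁) := by
  unfold v
  apply Continuous.rpow_const
  · exact (continuous_id.max continuous_const).div (continuous_B hα hm₁)
      (fun y => (B_pos hα hm₁ y).ne')
  · intro y
    right
    have := one_lt_q hα
    linarith

/-- `φ(y) = B(y) - y` is strictly decreasing. -/
lemma strictAnti_phi : StrictAnti (fun y => B α m₁ y - y) := by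
  apply strictAnti_of_deriv_neg
  intro y
  have h := (hasDerivAt_B hα hm₁ y).sub (hasDerivAt_id y)
  have h2 : deriv (fun y => B α m₁ y - y) y = v α m₁ y - 1 := h.deriv
  rw [h2]
  have := v_lt_one hα hm₁ y
  linarith

/-- density of the fan, extended by zero, in physical variables -/
lemma fanDensity_eq {ρ₂ t ρ : ℝ} (ht : 0 < t) (hρ : ρ₂ < ρ) :
    fanDensity α ρ₂ m₁ t ρ = (tau α t)⁻¹ * v α m₁ ((ρ - ρ₂) / tau α t) := by
  have hτ := tau_pos hα ht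
  have hq := one_lt_q hα
  set τ := tau α t with hτdef
  set y := (ρ - ρ₂) / τ with hy
  have hy0 : 0 < y := div_pos (by linarith) hτ
  have hB := B_pos hα hm₁ y
  have hατ : τ ^ α = α * t := tau_rpow hα ht
  have e1 : (ρ - ρ₂) / (α * m₁ * t) = (y / m₁) * τ ^ (1 - α) := by
    have : α * m₁ * t = m₁ * τ ^ α := by rw [hατ]; ring
    rw [this, Real.rpow_sub hτ, Real.rpow_one, hy]
    field_simp
  have hy1 : 0 < y / m₁ := by positivity
  have e2 : ((ρ - ρ₂) / (α * m₁ * t)) ^ (-(α / (α - 1))) = (m₁ / y) ^ q α * τ ^ α := by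
    rw [e1, Real.mul_rpow hy1.le (Real.rpow_nonneg hτ.le _), ← Real.rpow_mul hτ.le]
    have h1 : (1 - α) * -(α / (α - 1)) = α := by
      have : α - 1 ≠ 0 := by linarith
      field_simp
      ring
    rw [h1]
    congr 1
    rw [Real.rpow_neg hy1.le, ← Real.inv_rpow hy1.le, inv_div]
    rfl
  have e3 : ((ρ - ρ₂) / (α * m₁ * t)) ^ (-(α / (α - 1))) + α * t = (B α m₁ y / y) ^ q α * τ ^ α := by
    rw [e2, ← hατ, Real.div_rpow hB.le hy0.le, B_rpow hα hm₁, max_eq_left hy0.le,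
      Real.div_rpow hm₁.le hy0.le]
    have : 0 < y ^ q α := Real.rpow_pos_of_pos hy0 _
    field_simp
  have hBy : 0 < B α m₁ y / y := by positivity
  unfold fanDensity
  rw [e3, Real.mul_rpow (Real.rpow_nonneg hBy.le _) (Real.rpow_nonneg hτ.le _),
    ← Real.rpow_mul hBy.le, ← Real.rpow_mul hτ.le]
  have h1 : α * -(1 / α) = -1 := by
    have : α ≠ 0 := by linarith
    field_simp
  have h2 : q α * -(1 / α) = -(q α - 1) := by
    have h3 := q_sub_one_mul hα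
    have : α ≠ 0 := by linarith
    field_simp
    linarith
  rw [h1, h2, Real.rpow_neg_one, Real.rpow_neg hBy.le, ← Real.inv_rpow hBy.le, inv_div, mul_comm]
  unfold v
  rw [max_eq_left hy0.le]

lemma integral_fan {ρ₂ t a b : ℝ} (ht : 0 < t) :
    ∫ r in a..b, (tau α t)⁻¹ * v α m₁ ((r - ρ₂) / tau α t) =
      B α m₁ ((b - ρ₂) / tau α t) - B α m₁ ((a - ρ₂) / tau α t) := by
  have hτ := tau_pos hα ht
  have hcont : Continuous (fun r : ℝ => (tau α t)⁻¹ * v α m₁ ((r - ρ₂) / tau α t)) := by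
    apply continuous_const.mul
    exact (continuous_v hα hm₁).comp ((continuous_id.sub continuous_const).div_const _)
  rw [intervalIntegral.integral_eq_sub_of_hasDerivAt (f := fun r => B α m₁ ((r - ρ₂) / tau α t))]
  · intro r _
    have h1 : HasDerivAt (fun r : ℝ => (r - ρ₂) / tau α t) (1 / tau α t) r :=
      ((hasDerivAt_id r).sub_const ρ₂).div_const _
    have h2 := (hasDerivAt_B hα hm₁ ((r - ρ₂) / tau α t)).comp r h1
    refine h2.congr_deriv ?_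
    rw [one_div, mul_comm]
  · exact hcont.intervalIntegrable _ _

end

/-! ### The mass function and the Rankine–Hugoniot conditions -/

/-- the density of the fan extended by zero -/
noncomputable def uf (α ρ₂ m₁ t r : ℝ) : ℝ := (tau α t)⁻¹ * v α m₁ ((r - ρ₂) / tau α t)

section
variable {α ρ₁ ρ₂ m₁ : ℝ} {S₁ S₂ : ℝ → ℝ} {t : ℝ}
  (hα : 1 < α) (hm₁ : 0 < m₁) (ht : 0 < t)
include hα hm₁ ht

lemma continuous_uf : Continuous (uf α ρ₂ m₁ t) := by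
  unfold uf
  apply continuous_const.mul
  exact (continuous_v hα hm₁).comp ((continuous_id.sub continuous_const).div_const _)

lemma density_eq (ρ : ℝ) : density α ρ₁ ρ₂ m₁ S₁ S₂ t ρ =
    (Ioo ρ₁ (S₁ t)).indicator (fun _ => (tau α t)⁻¹) ρ +
    (Ioo (S₁ t) (S₂ t)).indicator (uf α ρ₂ m₁ t) ρ := by
  unfold density
  have hτ := tau_pos hα ht
  split_ifs with h1 h2
  · rw [indicator_of_mem (show ρ ∈ Ioo ρ₁ (S₁ t) from h1), indicator_of_notMem, add_zero,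
      vortexDensity_eq hα ht]
    intro h
    exact absurd h.1 (not_lt.2 h1.2.le)
  · rw [indicator_of_notMem (show ρ ∉ Ioo ρ₁ (S₁ t) from h1),
      indicator_of_mem (show ρ ∈ Ioo (S₁ t) (S₂ t) from ⟨h2.2.1, h2.2.2⟩), zero_add,
      fanDensity_eq hα hm₁ ht h2.1]
    rfl
  · rw [indicator_of_notMem (show ρ ∉ Ioo ρ₁ (S₁ t) from h1), zero_add]
    by_cases h3 : ρ ∈ Ioo (S₁ t) (S₂ t)
    · rw [indicator_of_mem h3]
      unfold uf
      have h4 : ρ ≤ ρ₂ := by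
        by_contra h5
        exact h2 ⟨not_le.1 h5, h3.1, h3.2⟩
      rw [v_of_nonpos hα hm₁ (div_nonpos_of_nonpos_of_nonneg (by linarith) hτ.le), mul_zero]
    · rw [indicator_of_notMem h3]

lemma mass_eq {ρ : ℝ} (hρ : 0 ≤ ρ) : mass α ρ₁ ρ₂ m₁ S₁ S₂ t ρ =
    (∫ r in Ioc 0 ρ ∩ Ioo ρ₁ (S₁ t), (tau α t)⁻¹) +
    ∫ r in Ioc 0 ρ ∩ Ioo (S₁ t) (S₂ t), uf α ρ₂ m₁ t r := by
  unfold mass
  rw [intervalIntegral.integral_of_le hρ]
  have h1 : (fun r => density α ρ₁ ρ₂ m₁ S₁ S₂ t r) = fun r =>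
      (Ioo ρ₁ (S₁ t)).indicator (fun _ => (tau α t)⁻¹) r +
      (Ioo (S₁ t) (S₂ t)).indicator (uf α ρ₂ m₁ t) r := by
    ext r; exact density_eq hα hm₁ ht r
  rw [h1, integral_add, setIntegral_indicator measurableSet_Ioo,
    setIntegral_indicator measurableSet_Ioo]
  · apply Integrable.indicator _ measurableSet_Ioo
    exact integrable_const _
  · apply Integrable.indicator _ measurableSet_Ioo
    exact ((continuous_uf hα hm₁ ht).integrableOn_Icc (a := 0) (b := ρ)).mono_set Ioc_subset_Icc_self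

lemma mass_mid {ρ : ℝ} (hρ₁ : 0 < ρ₁) (h1 : ρ₁ < S₁ t) (h2 : S₁ t ≤ ρ) (h3 : ρ < S₂ t) :
    mass α ρ₁ ρ₂ m₁ S₁ S₂ t ρ = (S₁ t - ρ₁) / tau α t + B α m₁ ((ρ - ρ₂) / tau α t)
      - B α m₁ ((S₁ t - ρ₂) / tau α t) := by
  rw [mass_eq hα hm₁ ht (by linarith)]
  have e1 : Ioc 0 ρ ∩ Ioo ρ₁ (S₁ t) = Ioo ρ₁ (S₁ t) := by
    ext x
    simp only [mem_inter_iff, mem_Ioc, mem_Ioo]
    constructor
    · exact fun h => h.2
    · exact fun h => ⟨⟨by linarith, by linarith⟩, h⟩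
  have e2 : Ioc 0 ρ ∩ Ioo (S₁ t) (S₂ t) = Ioc (S₁ t) ρ := by
    ext x
    simp only [mem_inter_iff, mem_Ioc, mem_Ioo]
    constructor
    · exact fun h => ⟨h.2.1, h.1.2⟩
    · exact fun h => ⟨⟨by linarith, h.2⟩, h.1, by linarith⟩
  rw [e1, e2, ← intervalIntegral.integral_of_le h2]
  have e3 := integral_fan (ρ₂ := ρ₂) (a := S₁ t) (b := ρ) hα hm₁ ht
  have e4 : ∫ r in (S₁ t)..ρ, uf α ρ₂ m₁ t r =
      B α m₁ ((ρ - ρ₂) / tau α t) - B α m₁ ((S₁ t - ρ₂) / tau α t) := e3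
  rw [e4, setIntegral_const, Real.volume_real_Ioo_of_le h1.le, smul_eq_mul]
  ring

lemma mass_right {ρ : ℝ} (hρ₁ : 0 < ρ₁) (h1 : ρ₁ < S₁ t) (h2 : S₁ t ≤ S₂ t) (h3 : S₂ t ≤ ρ) :
    mass α ρ₁ ρ₂ m₁ S₁ S₂ t ρ = (S₁ t - ρ₁) / tau α t + B α m₁ ((S₂ t - ρ₂) / tau α t)
      - B α m₁ ((S₁ t - ρ₂) / tau α t) := by
  rw [mass_eq hα hm₁ ht (by linarith)]
  have e1 : Ioc 0 ρ ∩ Ioo ρ₁ (S₁ t) = Ioo ρ₁ (S₁ t) := by
    ext x
    simp only [mem_inter_iff, mem_Ioc, mem_Ioo]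
    constructor
    · exact fun h => h.2
    · exact fun h => ⟨⟨by linarith, by linarith⟩, h⟩
  have e2 : Ioc 0 ρ ∩ Ioo (S₁ t) (S₂ t) = Ioo (S₁ t) (S₂ t) := by
    ext x
    simp only [mem_inter_iff, mem_Ioc, mem_Ioo]
    constructor
    · exact fun h => h.2
    · exact fun h => ⟨⟨by linarith, by linarith⟩, h⟩
  rw [e1, e2, ← integral_Ioc_eq_integral_Ioo (x := S₁ t) (y := S₂ t),
    ← intervalIntegral.integral_of_le h2]
  have e3 := integral_fan (ρ₂ := ρ₂) (a := S₁ t) (b := S₂ t) hα hm₁ ht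
  have e4 : ∫ r in (S₁ t)..(S₂ t), uf α ρ₂ m₁ t r =
      B α m₁ ((S₂ t - ρ₂) / tau α t) - B α m₁ ((S₁ t - ρ₂) / tau α t) := e3
  rw [e4, setIntegral_const, Real.volume_real_Ioo_of_le h1.le, smul_eq_mul]
  ring

lemma tendsto_left₁ (h1 : ρ₁ < S₁ t) :
    Tendsto (density α ρ₁ ρ₂ m₁ S₁ S₂ t) (𝓝[<] (S₁ t)) (𝓝 (tau α t)⁻¹) := by
  apply tendsto_const_nhds.congr'
  filter_upwards [Ioo_mem_nhdsLT h1] with r hr
  rw [density_eq hα hm₁ ht, indicator_of_mem hr, indicator_of_notMem, add_zero]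
  intro h
  exact absurd h.1 (not_lt.2 hr.2.le)

lemma tendsto_right₁ (h1 : S₁ t < S₂ t) :
    Tendsto (density α ρ₁ ρ₂ m₁ S₁ S₂ t) (𝓝[>] (S₁ t)) (𝓝 (uf α ρ₂ m₁ t (S₁ t))) := by
  have h2 : Tendsto (uf α ρ₂ m₁ t) (𝓝[>] (S₁ t)) (𝓝 (uf α ρ₂ m₁ t (S₁ t))) :=
    ((continuous_uf hα hm₁ ht).tendsto _).mono_left nhdsWithin_le_nhds
  apply h2.congr'
  filter_upwards [Ioo_mem_nhdsGT h1] with r hr
  rw [density_eq hα hm₁ ht, indicator_of_mem hr, indicator_of_notMem, zero_add]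
  intro h
  exact absurd h.2 (not_lt.2 hr.1.le)

lemma tendsto_left₂ (h1 : S₁ t < S₂ t) :
    Tendsto (density α ρ₁ ρ₂ m₁ S₁ S₂ t) (𝓝[<] (S₂ t)) (𝓝 (uf α ρ₂ m₁ t (S₂ t))) := by
  have h2 : Tendsto (uf α ρ₂ m₁ t) (𝓝[<] (S₂ t)) (𝓝 (uf α ρ₂ m₁ t (S₂ t))) :=
    ((continuous_uf hα hm₁ ht).tendsto _).mono_left nhdsWithin_le_nhds
  apply h2.congr'
  filter_upwards [Ioo_mem_nhdsLT h1] with r hr
  rw [density_eq hα hm₁ ht, indicator_of_mem hr, indicator_of_notMem, zero_add]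
  intro h
  exact absurd h.2 (not_lt.2 hr.1.le)

lemma tendsto_right₂ (h1 : S₁ t < S₂ t) :
    Tendsto (density α ρ₁ ρ₂ m₁ S₁ S₂ t) (𝓝[>] (S₂ t)) (𝓝 0) := by
  apply tendsto_const_nhds.congr'
  filter_upwards [self_mem_nhdsWithin] with r hr
  have hr' : S₂ t < r := hr
  rw [density_eq hα hm₁ ht, indicator_of_notMem, indicator_of_notMem, zero_add]
  · intro h
    exact absurd h.2 (not_lt.2 hr'.le)
  · intro h
    exact absurd h.2 (not_lt.2 (h1.le.trans hr'.le))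

lemma slope₁ (h1 : ρ₁ < S₁ t) :
    ((uf α ρ₂ m₁ t (S₁ t)) ^ α - ((tau α t)⁻¹) ^ α) / (uf α ρ₂ m₁ t (S₁ t) - (tau α t)⁻¹) =
    tau α t ^ (1 - α) * ((1 - v α m₁ ((S₁ t - ρ₂) / tau α t) ^ α) /
      (1 - v α m₁ ((S₁ t - ρ₂) / tau α t))) := by
  have hτ := tau_pos hα ht
  unfold uf
  set w := v α m₁ ((S₁ t - ρ₂) / tau α t) with hw
  have hw0 : 0 ≤ w := v_nonneg hα hm₁ _
  have hw1 : w < 1 := v_lt_one hα hm₁ _
  rw [Real.mul_rpow (inv_nonneg.2 hτ.le) hw0, Real.inv_rpow hτ.le, Real.rpow_sub hτ, Real.rpow_one]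
  have h2 : 0 < tau α t ^ α := Real.rpow_pos_of_pos hτ _
  have h3 : 1 - w ≠ 0 := by linarith
  have h4 : (tau α t)⁻¹ * w - (tau α t)⁻¹ ≠ 0 := by
    have : (tau α t)⁻¹ * w - (tau α t)⁻¹ = -((tau α t)⁻¹ * (1 - w)) := by ring
    rw [this, neg_ne_zero]
    exact mul_ne_zero (inv_ne_zero hτ.ne') h3
  rw [div_eq_iff h4]
  field_simp
  ring

lemma uf_pos (h : ρ₂ < S₂ t) : 0 < uf α ρ₂ m₁ t (S₂ t) := by
  have hτ := tau_pos hα ht
  unfold uf
  apply mul_pos (inv_pos.2 hτ)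
  unfold v
  apply Real.rpow_pos_of_pos
  apply div_pos _ (B_pos hα hm₁ _)
  apply lt_max_of_lt_left
  exact div_pos (by linarith) hτ

lemma slope₂ (h : ρ₂ < S₂ t) :
    ((0 : ℝ) ^ α - (uf α ρ₂ m₁ t (S₂ t)) ^ α) / (0 - uf α ρ₂ m₁ t (S₂ t)) =
    tau α t ^ (1 - α) * (((S₂ t - ρ₂) / tau α t) / B α m₁ ((S₂ t - ρ₂) / tau α t)) := by
  have hτ := tau_pos hα ht
  have hu := uf_pos hα hm₁ ht h
  have hy : 0 < (S₂ t - ρ₂) / tau α t := div_pos (by linarith) hτ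
  rw [Real.zero_rpow (by linarith), zero_sub, zero_sub, neg_div_neg_eq]
  have h1 : (uf α ρ₂ m₁ t (S₂ t)) ^ α / uf α ρ₂ m₁ t (S₂ t) =
      (uf α ρ₂ m₁ t (S₂ t)) ^ (α - 1) := by
    rw [Real.rpow_sub_one hu.ne']
  rw [h1]
  unfold uf
  rw [Real.mul_rpow (inv_nonneg.2 hτ.le) (v_nonneg hα hm₁ _), v_rpow' hα hm₁,
    max_eq_left hy.le, Real.inv_rpow hτ.le, ← Real.rpow_neg hτ.le, neg_sub]

lemma deriv_S₁ (hρ₁ : 0 < ρ₁) (h1 : ρ₁ < S₁ t) (h2 : S₁ t < S₂ t)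
    (h : RankineHugoniot α (density α ρ₁ ρ₂ m₁ S₁ S₂) (mass α ρ₁ ρ₂ m₁ S₁ S₂) S₁ t) :
    HasDerivAt S₁ ((S₁ t - ρ₁) / tau α t * (tau α t ^ (1 - α) *
      ((1 - v α m₁ ((S₁ t - ρ₂) / tau α t) ^ α) / (1 - v α m₁ ((S₁ t - ρ₂) / tau α t))))) t := by
  obtain ⟨ul, ur, hl, hr, -, hd⟩ := h
  have e1 := tendsto_nhds_unique hl (tendsto_left₁ hα hm₁ ht h1)
  have e2 := tendsto_nhds_unique hr (tendsto_right₁ hα hm₁ ht h2)
  rw [e1, e2, slope₁ hα hm₁ ht h1, mass_mid hα hm₁ ht hρ₁ h1 le_rfl h2, add_sub_cancel_right] at hd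
  exact hd

lemma deriv_S₂ (hρ₁ : 0 < ρ₁) (h1 : ρ₁ < S₁ t) (h2 : S₁ t < S₂ t) (h3 : ρ₂ < S₂ t)
    (h : RankineHugoniot α (density α ρ₁ ρ₂ m₁ S₁ S₂) (mass α ρ₁ ρ₂ m₁ S₁ S₂) S₂ t) :
    HasDerivAt S₂ (((S₁ t - ρ₁) / tau α t + B α m₁ ((S₂ t - ρ₂) / tau α t)
      - B α m₁ ((S₁ t - ρ₂) / tau α t)) * (tau α t ^ (1 - α) *
      (((S₂ t - ρ₂) / tau α t) / B α m₁ ((S₂ t - ρ₂) / tau α t)))) t := by
  obtain ⟨ul, ur, hl, hr, -, hd⟩ := h
  have e1 := tendsto_nhds_unique hl (tendsto_left₂ hα hm₁ ht h2)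
  have e2 := tendsto_nhds_unique hr (tendsto_right₂ hα hm₁ ht h2)
  rw [e1, e2, slope₂ hα hm₁ ht h3, mass_right hα hm₁ ht hρ₁ h1 h2.le le_rfl] at hd
  exact hd

/-- The evolution of the mass defect `D = A - B(y₁)`. -/
lemma deriv_D (hρ₁ : 0 < ρ₁) (h1 : ρ₁ < S₁ t) (h2 : S₁ t < S₂ t)
    (h : RankineHugoniot α (density α ρ₁ ρ₂ m₁ S₁ S₂) (mass α ρ₁ ρ₂ m₁ S₁ S₂) S₁ t) :
    HasDerivAt (fun s => (S₁ s - ρ₁) / tau α s - B α m₁ ((S₁ s - ρ₂) / tau α s))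
      (-(v α m₁ ((S₁ t - ρ₂) / tau α t) ^ α * tau α t ^ (-α)) *
        ((S₁ t - ρ₁) / tau α t - B α m₁ ((S₁ t - ρ₂) / tau α t))) t := by
  have hτ := tau_pos hα ht
  have hS := deriv_S₁ hα hm₁ ht hρ₁ h1 h2 h
  have hT := hasDerivAt_tau hα ht
  have hA := (hS.sub_const ρ₁).div hT hτ.ne'
  have hY := (hS.sub_const ρ₂).div hT hτ.ne'
  have hB := (hasDerivAt_B hα hm₁ ((S₁ t - ρ₂) / tau α t)).comp t hY
  refine (hA.sub hB).congr_deriv ?_
  set y := (S₁ t - ρ₂) / tau α t with hy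
  set A := (S₁ t - ρ₁) / tau α t with hA'
  have hw0 : 0 ≤ v α m₁ y := v_nonneg hα hm₁ _
  have hw1 : v α m₁ y < 1 := v_lt_one hα hm₁ _
  have hvm := v_mul hα hm₁ y
  have e1 : S₁ t - ρ₁ = A * tau α t := by rw [hA']; field_simp
  have e2 : S₁ t - ρ₂ = y * tau α t := by rw [hy]; field_simp
  have e3 : tau α t ^ (1 - α) = tau α t * tau α t ^ (-α) := by
    rw [Real.rpow_sub hτ, Real.rpow_one, Real.rpow_neg hτ.le]; field_simp
  have h3 : 1 - v α m₁ y ≠ 0 := by linarith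
  clear_value y A
  rw [e1, e2, e3]
  generalize v α m₁ y ^ α = wa at *
  generalize v α m₁ y = w at *
  generalize B α m₁ y = b at *
  generalize tau α t ^ (-α) = T at *
  field_simp
  linear_combination T * (1 - w) * hvm

end

section
variable {α ρ₁ ρ₂ m₁ : ℝ} {S₁ S₂ : ℝ → ℝ} {t : ℝ}
  (hα : 1 < α) (hm₁ : 0 < m₁)
include hα hm₁

lemma deriv_y₂ (ht : 0 < t) (hρ₁ : 0 < ρ₁) (h1 : ρ₁ < S₁ t) (h2 : S₁ t < S₂ t) (h3 : ρ₂ < S₂ t)
    (h : RankineHugoniot α (density α ρ₁ ρ₂ m₁ S₁ S₂) (mass α ρ₁ ρ₂ m₁ S₁ S₂) S₂ t)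
    (hD : (S₁ t - ρ₁) / tau α t - B α m₁ ((S₁ t - ρ₂) / tau α t) = 0) :
    HasDerivAt (fun s => (S₂ s - ρ₂) / tau α s) 0 t := by
  have hτ := tau_pos hα ht
  have hS := deriv_S₂ hα hm₁ ht hρ₁ h1 h2 h3 h
  have hT := hasDerivAt_tau hα ht
  have hY := (hS.sub_const ρ₂).div hT hτ.ne'
  refine hY.congr_deriv ?_
  have hBp := B_pos hα hm₁ ((S₂ t - ρ₂) / tau α t)
  have e0 : (S₁ t - ρ₁) / tau α t + B α m₁ ((S₂ t - ρ₂) / tau α t)
      - B α m₁ ((S₁ t - ρ₂) / tau α t) = B α m₁ ((S₂ t - ρ₂) / tau α t) := by linarith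
  rw [e0]
  set y := (S₂ t - ρ₂) / tau α t with hy
  have e2 : S₂ t - ρ₂ = y * tau α t := by rw [hy]; field_simp
  rw [e2]
  clear_value y
  field_simp
  ring

lemma phi_strictMonoB {y z : ℝ} (hy : 0 ≤ y) (hyz : y < z) : B α m₁ y < B α m₁ z := by
  have h1 : B α m₁ y ^ q α < B α m₁ z ^ q α := by
    rw [B_rpow hα hm₁, B_rpow hα hm₁, max_eq_left hy, max_eq_left (hy.trans hyz.le)]
    have := Real.rpow_lt_rpow hy hyz (q_pos hα)
    linarith
  exact (Real.rpow_lt_rpow_iff (B_pos hα hm₁ y).le (B_pos hα hm₁ z).le (q_pos hα)).1 h1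

lemma B_mono {y z : ℝ} (hyz : y ≤ z) : B α m₁ y ≤ B α m₁ z := by
  have h1 : B α m₁ y ^ q α ≤ B α m₁ z ^ q α := by
    rw [B_rpow hα hm₁, B_rpow hα hm₁]
    have h0 : max y 0 ≤ max z 0 := max_le_max hyz le_rfl
    have := Real.rpow_le_rpow (le_max_right _ _) h0 (q_pos hα).le
    linarith
  exact (Real.rpow_le_rpow_iff (B_pos hα hm₁ y).le (B_pos hα hm₁ z).le (q_pos hα)).1 h1

end

/-- the similarity position of the outer shock -/
noncomputable def K (α m₁ m₂ : ℝ) : ℝ :=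
  ((m₁ + m₂) ^ (α / (α - 1)) - m₁ ^ (α / (α - 1))) ^ ((α - 1) / α)

section
variable {α ρ₁ ρ₂ m₁ m₂ : ℝ} (hα : 1 < α) (hm₁ : 0 < m₁) (hm₂ : 0 < m₂)
include hα hm₁ hm₂

lemma K_base_pos : 0 < (m₁ + m₂) ^ q α - m₁ ^ q α := by
  have := Real.rpow_lt_rpow hm₁.le (show m₁ < m₁ + m₂ by linarith) (q_pos hα)
  linarith

lemma K_pos : 0 < K α m₁ m₂ := Real.rpow_pos_of_pos (K_base_pos hα hm₁ hm₂) _

lemma K_rpow : K α m₁ m₂ ^ q α = (m₁ + m₂) ^ q α - m₁ ^ q α := by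
  unfold K
  have h := K_base_pos hα hm₁ hm₂
  rw [← one_div_q hα]
  show (((m₁ + m₂) ^ q α - m₁ ^ q α) ^ (1 / q α)) ^ q α = _
  rw [← Real.rpow_mul h.le, one_div_mul_cancel (q_pos hα).ne', Real.rpow_one]

lemma B_K : B α m₁ (K α m₁ m₂) = m₁ + m₂ := by
  have h1 : B α m₁ (K α m₁ m₂) ^ q α = (m₁ + m₂) ^ q α := by
    rw [B_rpow hα hm₁, max_eq_left (K_pos hα hm₁ hm₂).le, K_rpow hα hm₁ hm₂]
    ring
  exact (Real.rpow_left_inj (B_pos hα hm₁ _).le (by positivity) (q_pos hα).ne').1 h1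

lemma K_lt : K α m₁ m₂ < m₁ + m₂ := by
  rw [← B_K hα hm₁ hm₂]
  have := max_lt_B hα hm₁ (K α m₁ m₂)
  rwa [max_eq_left (K_pos hα hm₁ hm₂).le] at this

lemma eq_K_of_B {y : ℝ} (hy : 0 < y) (h : B α m₁ y = m₁ + m₂) : y = K α m₁ m₂ := by
  rcases lt_trichotomy y (K α m₁ m₂) with h1 | h1 | h1
  · have := phi_strictMonoB hα hm₁ hy.le h1
    rw [h, B_K hα hm₁ hm₂] at this
    exact absurd this (lt_irrefl _)
  · exact h1
  · have := phi_strictMonoB hα hm₁ (K_pos hα hm₁ hm₂).le h1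
    rw [h, B_K hα hm₁ hm₂] at this
    exact absurd this (lt_irrefl _)

/-- the scale at which the shocks merge -/
lemma mergingTime_pos (hρ : ρ₁ < ρ₂) : 0 < mergingTime α ρ₁ ρ₂ m₁ m₂ := by
  unfold mergingTime
  have h1 := K_lt hα hm₁ hm₂
  have h2 : 0 < m₁ + m₂ - K α m₁ m₂ := by linarith
  have h3 : 0 < (ρ₂ - ρ₁) / (m₁ + m₂ - K α m₁ m₂) := div_pos (by linarith) h2
  exact div_pos (Real.rpow_pos_of_pos h3 _) (by linarith)

lemma tau_mergingTime (hρ : ρ₁ < ρ₂) :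
    tau α (mergingTime α ρ₁ ρ₂ m₁ m₂) = (ρ₂ - ρ₁) / (m₁ + m₂ - K α m₁ m₂) := by
  have h1 := K_lt hα hm₁ hm₂
  have h2 : 0 < m₁ + m₂ - K α m₁ m₂ := by linarith
  have h3 : 0 < (ρ₂ - ρ₁) / (m₁ + m₂ - K α m₁ m₂) := div_pos (by linarith) h2
  unfold tau mergingTime
  have h4 : α ≠ 0 := by linarith
  rw [mul_div_cancel₀ _ h4]
  show ((((ρ₂ - ρ₁) / (m₁ + m₂ - K α m₁ m₂)) ^ α) ^ (1 / α)) = _
  rw [← Real.rpow_mul h3.le, mul_one_div_cancel h4, Real.rpow_one]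

omit hm₁ hm₂ in
lemma tau_strictMono {s t : ℝ} (hs : 0 ≤ s) (hst : s < t) : tau α s < tau α t := by
  unfold tau
  apply Real.rpow_lt_rpow
  · have : 0 < α := by linarith
    positivity
  · exact mul_lt_mul_of_pos_left hst (by linarith)
  · have : 0 < α := by linarith
    positivity

end

/-! ### The structure of a two-bump solution before merging -/

section
variable {α ρ₁ ρ₂ m₁ m₂ : ℝ} {S₁ S₂ : ℝ → ℝ}
  (hα : 1 < α) (hρ₁ : 0 < ρ₁) (hρ : ρ₁ < ρ₂) (hm₁ : 0 < m₁) (hm₂ : 0 < m₂)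
  (h : IsTwoBump α ρ₁ ρ₂ m₁ m₂ S₁ S₂)
include hα hρ₁ hρ hm₁ hm₂ h

lemma tendsto_S₁ : Tendsto S₁ (𝓝[>] 0) (𝓝 ρ₁) := by
  have h1 := h.cont₁ 0 self_mem_Ici
  rw [ContinuousWithinAt, h.init₁] at h1
  exact h1.mono_left (nhdsWithin_mono _ Ioi_subset_Ici_self)

lemma tendsto_S₂ : Tendsto S₂ (𝓝[>] 0) (𝓝 ρ₂) := by
  have h1 := h.cont₂ 0 self_mem_Ici
  rw [ContinuousWithinAt, h.init₂] at h1
  exact h1.mono_left (nhdsWithin_mono _ Ioi_subset_Ici_self)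

lemma tendsto_D : Tendsto (fun s => (S₁ s - ρ₁) / tau α s - B α m₁ ((S₁ s - ρ₂) / tau α s))
    (𝓝[>] 0) (𝓝 0) := by
  have hmid1 : ρ₁ < (ρ₁ + ρ₂) / 2 := by linarith
  have hmid2 : (ρ₁ + ρ₂) / 2 < ρ₂ := by linarith
  have h1 := h.init_mass ((ρ₁ + ρ₂) / 2) (by linarith) (by linarith) (by linarith)
  rw [if_pos hmid1.le, if_neg (not_le.2 hmid2), add_zero] at h1
  have h2 : Tendsto (fun t => mass α ρ₁ ρ₂ m₁ S₁ S₂ t ((ρ₁ + ρ₂) / 2) - m₁) (𝓝[>] 0)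
      (𝓝 (m₁ - m₁)) := h1.sub_const m₁
  rw [sub_self] at h2
  apply h2.congr'
  have ev1 : ∀ᶠ t in 𝓝[>] (0 : ℝ), S₁ t < (ρ₁ + ρ₂) / 2 :=
    (tendsto_S₁ hα hρ₁ hρ hm₁ hm₂ h).eventually_lt_const hmid1
  filter_upwards [ev1, self_mem_nhdsWithin] with t ht1 ht0
  have ht0' : 0 < t := ht0
  have hτ := tau_pos hα ht0'
  rw [mass_mid hα hm₁ ht0' hρ₁ (h.gt₁ t ht0') ht1.le (hmid2.trans (h.gt₂ t ht0')),
    B_of_nonpos hα hm₁ (y := ((ρ₁ + ρ₂) / 2 - ρ₂) / tau α t)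
      (div_nonpos_of_nonpos_of_nonneg (by linarith) hτ.le)]
  ring

lemma tendsto_DB : Tendsto (fun s => ((S₁ s - ρ₁) / tau α s - B α m₁ ((S₁ s - ρ₂) / tau α s)) +
    B α m₁ ((S₂ s - ρ₂) / tau α s)) (𝓝[>] 0) (𝓝 (m₁ + m₂)) := by
  have h1 := h.init_mass (ρ₂ + 1) (by linarith) (by linarith) (by linarith)
  rw [if_pos (by linarith), if_pos (by linarith)] at h1
  apply h1.congr'
  have ev1 : ∀ᶠ t in 𝓝[>] (0 : ℝ), S₂ t < ρ₂ + 1 :=
    (tendsto_S₂ hα hρ₁ hρ hm₁ hm₂ h).eventually_lt_const (by linarith)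
  filter_upwards [ev1, self_mem_nhdsWithin] with t ht1 ht0
  have ht0' : 0 < t := ht0
  rw [mass_right hα hm₁ ht0' hρ₁ (h.gt₁ t ht0') (h.order t ht0'.le) ht1.le]
  ring

lemma D_eq_zero {t₀ : ℝ} (ht₀ : 0 < t₀) (hun : ∀ s ∈ Icc 0 t₀, S₁ s < S₂ s) :
    (S₁ t₀ - ρ₁) / tau α t₀ - B α m₁ ((S₁ t₀ - ρ₂) / tau α t₀) = 0 := by
  set D : ℝ → ℝ := fun s => (S₁ s - ρ₁) / tau α s - B α m₁ ((S₁ s - ρ₂) / tau α s) with hD
  have hder : ∀ t ∈ Ioc 0 t₀, HasDerivAt D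
      (-(v α m₁ ((S₁ t - ρ₂) / tau α t) ^ α * tau α t ^ (-α)) * D t) t := by
    intro t ht
    have hun' : ∀ s ∈ Icc 0 t, S₁ s < S₂ s := fun s hs => hun s ⟨hs.1, hs.2.trans ht.2⟩
    exact deriv_D hα hm₁ ht.1 hρ₁ (h.gt₁ t ht.1) (hun t ⟨ht.1.le, ht.2⟩) (h.rh₁ t ht.1 hun')
  have hder2 : ∀ t ∈ Ioc 0 t₀, HasDerivAt (fun s => D s * D s)
      (-(v α m₁ ((S₁ t - ρ₂) / tau α t) ^ α * tau α t ^ (-α)) * D t * D t +
        D t * (-(v α m₁ ((S₁ t - ρ₂) / tau α t) ^ α * tau α t ^ (-α)) * D t)) t :=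
    fun t ht => (hder t ht).mul (hder t ht)
  have hanti : AntitoneOn (fun s => D s * D s) (Ioc 0 t₀) := by
    apply antitoneOn_of_deriv_nonpos (convex_Ioc 0 t₀)
    · intro t ht
      exact (hder2 t ht).continuousAt.continuousWithinAt
    · intro t ht
      rw [interior_Ioc] at ht
      exact (hder2 t ⟨ht.1, ht.2.le⟩).differentiableAt.differentiableWithinAt
    · intro t ht
      rw [interior_Ioc] at ht
      rw [(hder2 t ⟨ht.1, ht.2.le⟩).deriv]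
      have h1 : 0 ≤ v α m₁ ((S₁ t - ρ₂) / tau α t) ^ α :=
        Real.rpow_nonneg (v_nonneg hα hm₁ _) _
      have h2 : 0 ≤ tau α t ^ (-α) := Real.rpow_nonneg (tau_pos hα ht.1).le _
      have h3 := mul_nonneg h1 h2
      nlinarith [mul_nonneg h3 (mul_self_nonneg (D t))]
  have hlim : Tendsto (fun s => D s * D s) (𝓝[>] 0) (𝓝 (0 * 0)) :=
    (tendsto_D hα hρ₁ hρ hm₁ hm₂ h).mul (tendsto_D hα hρ₁ hρ hm₁ hm₂ h)
  have hle : D t₀ * D t₀ ≤ 0 * 0 := by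
    apply ge_of_tendsto hlim
    filter_upwards [Ioo_mem_nhdsGT ht₀] with s hs
    exact hanti ⟨hs.1, hs.2.le⟩ ⟨ht₀, le_rfl⟩ hs.2.le
  have : D t₀ * D t₀ = 0 := le_antisymm (by simpa using hle) (mul_self_nonneg _)
  exact mul_self_eq_zero.1 this

lemma y₂_eq {t₀ : ℝ} (ht₀ : 0 < t₀) (hun : ∀ s ∈ Icc 0 t₀, S₁ s < S₂ s) :
    (S₂ t₀ - ρ₂) / tau α t₀ = K α m₁ m₂ := by
  have hDz : ∀ t ∈ Ioc 0 t₀,
      (S₁ t - ρ₁) / tau α t - B α m₁ ((S₁ t - ρ₂) / tau α t) = 0 := fun t ht =>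
    D_eq_zero hα hρ₁ hρ hm₁ hm₂ h ht.1 (fun s hs => hun s ⟨hs.1, hs.2.trans ht.2⟩)
  have hder : ∀ t ∈ Ioc 0 t₀, HasDerivAt (fun s => (S₂ s - ρ₂) / tau α s) 0 t := by
    intro t ht
    have hun' : ∀ s ∈ Icc 0 t, S₁ s < S₂ s := fun s hs => hun s ⟨hs.1, hs.2.trans ht.2⟩
    exact deriv_y₂ hα hm₁ ht.1 hρ₁ (h.gt₁ t ht.1) (hun t ⟨ht.1.le, ht.2⟩) (h.gt₂ t ht.1)
      (h.rh₂ t ht.1 hun') (hDz t ht)
  have hanti : AntitoneOn (fun s => (S₂ s - ρ₂) / tau α s) (Ioc 0 t₀) := by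
    apply antitoneOn_of_deriv_nonpos (convex_Ioc 0 t₀)
    · intro t ht
      exact (hder t ht).continuousAt.continuousWithinAt
    · intro t ht
      rw [interior_Ioc] at ht
      exact (hder t ⟨ht.1, ht.2.le⟩).differentiableAt.differentiableWithinAt
    · intro t ht
      rw [interior_Ioc] at ht
      rw [(hder t ⟨ht.1, ht.2.le⟩).deriv]
  have hmono : MonotoneOn (fun s => (S₂ s - ρ₂) / tau α s) (Ioc 0 t₀) := by
    apply monotoneOn_of_deriv_nonneg (convex_Ioc 0 t₀)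
    · intro t ht
      exact (hder t ht).continuousAt.continuousWithinAt
    · intro t ht
      rw [interior_Ioc] at ht
      exact (hder t ⟨ht.1, ht.2.le⟩).differentiableAt.differentiableWithinAt
    · intro t ht
      rw [interior_Ioc] at ht
      rw [(hder t ⟨ht.1, ht.2.le⟩).deriv]
  have hτ := tau_pos hα ht₀
  have hlim : Tendsto (fun _ : ℝ => B α m₁ ((S₂ t₀ - ρ₂) / tau α t₀)) (𝓝[>] 0)
      (𝓝 (m₁ + m₂)) := by
    apply (tendsto_DB hα hρ₁ hρ hm₁ hm₂ h).congr'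
    filter_upwards [Ioo_mem_nhdsGT ht₀] with s hs
    have hs' : s ∈ Ioc 0 t₀ := ⟨hs.1, hs.2.le⟩
    have ht' : t₀ ∈ Ioc 0 t₀ := ⟨ht₀, le_rfl⟩
    rw [hDz s hs', zero_add]
    congr 1
    exact le_antisymm (hmono hs' ht' hs.2.le) (hanti hs' ht' hs.2.le)
  have hB := tendsto_nhds_unique hlim tendsto_const_nhds
  exact eq_K_of_B hα hm₁ hm₂ (div_pos (by have := h.gt₂ t₀ ht₀; linarith) hτ) hB.symm

/-- Unmerged up to `t₀` forces `t₀` to be smaller than the merging time. -/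
lemma lt_mergingTime {t₀ : ℝ} (ht₀ : 0 ≤ t₀) (hun : ∀ s ∈ Icc 0 t₀, S₁ s < S₂ s) :
    t₀ < mergingTime α ρ₁ ρ₂ m₁ m₂ := by
  rcases ht₀.eq_or_lt with h0 | ht₀
  · rw [← h0]; exact mergingTime_pos hα hm₁ hm₂ hρ
  by_contra hcon
  have hcon : mergingTime α ρ₁ ρ₂ m₁ m₂ ≤ t₀ := not_lt.1 hcon
  have hT0 := mergingTime_pos (ρ₁ := ρ₁) (ρ₂ := ρ₂) hα hm₁ hm₂ hρ
  have h1 : tau α (mergingTime α ρ₁ ρ₂ m₁ m₂) ≤ tau α t₀ := by
    rcases hcon.eq_or_lt with h2 | h2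
    · rw [h2]
    · exact (tau_strictMono hα hT0.le h2).le
  rw [tau_mergingTime hα hm₁ hm₂ hρ] at h1
  have hτ := tau_pos hα ht₀
  have hD := D_eq_zero hα hρ₁ hρ hm₁ hm₂ h ht₀ hun
  have hy := y₂_eq hα hρ₁ hρ hm₁ hm₂ h ht₀ hun
  have hlt : (S₁ t₀ - ρ₂) / tau α t₀ < K α m₁ m₂ := by
    rw [← hy]
    have := hun t₀ ⟨ht₀.le, le_rfl⟩
    gcongr
  have hphi := strictAnti_phi hα hm₁ hlt
  simp only at hphi
  rw [B_K hα hm₁ hm₂] at hphi
  have e1 : B α m₁ ((S₁ t₀ - ρ₂) / tau α t₀) - (S₁ t₀ - ρ₂) / tau α t₀ = (ρ₂ - ρ₁) / tau α t₀ := by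
    have : B α m₁ ((S₁ t₀ - ρ₂) / tau α t₀) = (S₁ t₀ - ρ₁) / tau α t₀ := by linarith
    rw [this]
    field_simp
    ring
  rw [e1, lt_div_iff₀ hτ] at hphi
  have h2 := K_lt hα hm₁ hm₂
  rw [div_le_iff₀ (by linarith)] at h1
  linarith

/-- The shocks merge exactly at the merging time. -/
lemma merging : (∀ t, 0 ≤ t → t < mergingTime α ρ₁ ρ₂ m₁ m₂ → S₁ t < S₂ t) ∧
    S₁ (mergingTime α ρ₁ ρ₂ m₁ m₂) = S₂ (mergingTime α ρ₁ ρ₂ m₁ m₂) := by
  set T := mergingTime α ρ₁ ρ₂ m₁ m₂ with hT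
  have hT0 : 0 < T := mergingTime_pos hα hm₁ hm₂ hρ
  -- some merging before T
  obtain ⟨s₀, hs₀, hs₀'⟩ : ∃ s ∈ Icc 0 T, ¬ S₁ s < S₂ s := by
    by_contra hcon
    push Not at hcon
    exact lt_irrefl _ (lt_mergingTime hα hρ₁ hρ hm₁ hm₂ h hT0.le hcon)
  set E : Set ℝ := {s | s ∈ Icc 0 T ∧ S₂ s - S₁ s ∈ Iic 0} with hE
  have hEcl : IsClosed E := by
    have hc : ContinuousOn (fun s => S₂ s - S₁ s) (Icc 0 T) :=
      (h.cont₂.sub h.cont₁).mono (fun s hs => hs.1)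
    exact hc.preimage_isClosed_of_isClosed isClosed_Icc isClosed_Iic
  have hEne : E.Nonempty := ⟨s₀, hs₀, by
    have := not_lt.1 hs₀'
    show S₂ s₀ - S₁ s₀ ≤ 0
    linarith⟩
  have hEbdd : BddBelow E := ⟨0, fun s hs => hs.1.1⟩
  set T₁ := sInf E with hT₁
  have hT₁mem : T₁ ∈ E := hEcl.csInf_mem hEne hEbdd
  have hbefore : ∀ s, 0 ≤ s → s < T₁ → S₁ s < S₂ s := by
    intro s hs0 hs1
    by_contra hcon
    have : s ∈ E := ⟨⟨hs0, hs1.le.trans hT₁mem.1.2⟩, by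
      have := not_lt.1 hcon
      show S₂ s - S₁ s ≤ 0
      linarith⟩
    exact absurd (csInf_le hEbdd this) (not_le.2 hs1)
  have hT₁0 : 0 < T₁ := by
    rcases hT₁mem.1.1.eq_or_lt with h0 | h0
    · exfalso
      have h1 : S₂ T₁ - S₁ T₁ ≤ 0 := hT₁mem.2
      rw [← h0, h.init₁, h.init₂] at h1
      linarith
    · exact h0
  have heq : S₁ T₁ = S₂ T₁ := by
    apply le_antisymm (h.order T₁ hT₁0.le)
    have h1 : S₂ T₁ - S₁ T₁ ≤ 0 := hT₁mem.2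
    linarith
  -- T₁ = T
  have hTT : T₁ = T := by
    have hτ := tau_pos hα hT₁0
    have hc1 : ContinuousAt S₁ T₁ := h.cont₁.continuousAt (Ici_mem_nhds hT₁0)
    have hc2 : ContinuousAt S₂ T₁ := h.cont₂.continuousAt (Ici_mem_nhds hT₁0)
    have hcτ : ContinuousAt (tau α) T₁ := (hasDerivAt_tau hα hT₁0).continuousAt
    have l1 : Tendsto (fun s => (S₂ s - ρ₂) / tau α s) (𝓝[<] T₁)
        (𝓝 ((S₂ T₁ - ρ₂) / tau α T₁)) :=
      (((hc2.tendsto.sub_const ρ₂).div hcτ.tendsto hτ.ne')).mono_left nhdsWithin_le_nhds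
    have l2 : Tendsto (fun s => (S₁ s - ρ₁) / tau α s - B α m₁ ((S₁ s - ρ₂) / tau α s)) (𝓝[<] T₁)
        (𝓝 ((S₁ T₁ - ρ₁) / tau α T₁ - B α m₁ ((S₁ T₁ - ρ₂) / tau α T₁))) := by
      have hB := (continuous_B hα hm₁).tendsto ((S₁ T₁ - ρ₂) / tau α T₁)
      exact (((hc1.tendsto.sub_const ρ₁).div hcτ.tendsto hτ.ne').sub
        (hB.comp ((hc1.tendsto.sub_const ρ₂).div hcτ.tendsto hτ.ne'))).mono_left nhdsWithin_le_nhds
    have hpos : ∀ᶠ s in 𝓝[<] T₁, 0 < s ∧ s < T₁ := by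
      filter_upwards [Ioo_mem_nhdsLT hT₁0] with s hs
      exact hs
    have l1' : (S₂ T₁ - ρ₂) / tau α T₁ = K α m₁ m₂ := by
      apply tendsto_nhds_unique l1
      apply tendsto_const_nhds.congr'
      filter_upwards [hpos] with s hs
      exact (y₂_eq hα hρ₁ hρ hm₁ hm₂ h hs.1
        (fun r hr => hbefore r hr.1 (hr.2.trans_lt hs.2))).symm
    have l2' : (S₁ T₁ - ρ₁) / tau α T₁ - B α m₁ ((S₁ T₁ - ρ₂) / tau α T₁) = 0 := by
      apply tendsto_nhds_unique l2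
      apply tendsto_const_nhds.congr'
      filter_upwards [hpos] with s hs
      exact (D_eq_zero hα hρ₁ hρ hm₁ hm₂ h hs.1
        (fun r hr => hbefore r hr.1 (hr.2.trans_lt hs.2))).symm
    rw [heq, l1', B_K hα hm₁ hm₂] at l2'
    have e1 : (S₂ T₁ - ρ₁) / tau α T₁ = m₁ + m₂ := by linarith
    have e2 : (ρ₂ - ρ₁) / tau α T₁ = m₁ + m₂ - K α m₁ m₂ := by
      rw [← e1, ← l1']
      field_simp
      ring
    have hKlt := K_lt hα hm₁ hm₂
    have e3 : tau α T₁ = tau α T := by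
      rw [hT, tau_mergingTime hα hm₁ hm₂ hρ, ← e2]
      have : ρ₂ - ρ₁ ≠ 0 := by linarith
      field_simp
    rcases lt_trichotomy T₁ T with h1 | h1 | h1
    · exact absurd e3 (tau_strictMono hα hT₁0.le h1).ne
    · exact h1
    · exact absurd e3 (tau_strictMono hα hT0.le h1).ne'
  rw [← hTT]
  exact ⟨fun t ht0 ht1 => hbefore t ht0 ht1, heq⟩

end

/-! ### Existence of the two-bump shock curves -/

section
variable {α ρ₁ ρ₂ m₁ m₂ : ℝ} (hα : 1 < α) (hm₁ : 0 < m₁) (hm₂ : 0 < m₂)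
include hα hm₁ hm₂

/-- a strictly increasing bijection of `ℝ` which equals `y - B(y)` for `y ≤ K` -/
lemma exists_inverse : ∃ Ψ : ℝ → ℝ, Continuous Ψ ∧ StrictMono Ψ ∧
    Ψ (K α m₁ m₂ - (m₁ + m₂)) = K α m₁ m₂ ∧
    ∀ s, s < K α m₁ m₂ - (m₁ + m₂) → Ψ s < K α m₁ m₂ ∧ B α m₁ (Ψ s) - Ψ s = -s ∧
      HasDerivAt Ψ (1 - v α m₁ (Ψ s))⁻¹ s := by
  set k := K α m₁ m₂ with hk
  set ψ : ℝ → ℝ := fun y => (y - B α m₁ y) + (max (y - k) 0) ^ 2 with hψ
  have hcont : Continuous ψ := by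
    apply Continuous.add
    · exact continuous_id.sub (continuous_B hα hm₁)
    · exact ((continuous_id.sub continuous_const).max continuous_const).pow 2
  have hmono : StrictMono ψ := by
    intro y z hyz
    have h1 := strictAnti_phi hα hm₁ hyz
    simp only at h1
    have h2 : (max (y - k) 0) ^ 2 ≤ (max (z - k) 0) ^ 2 := by
      apply pow_le_pow_left₀ (le_max_right _ _)
      exact max_le_max (by linarith) le_rfl
    simp only [hψ]
    linarith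
  have htop : Tendsto ψ atTop atTop := by
    apply tendsto_atTop_mono' (f₁ := fun y => -m₁ - 1 + (y - k))
    · filter_upwards [eventually_ge_atTop (max 0 k)] with y hy
      have hy0 : 0 ≤ y := (le_max_left _ _).trans hy
      have hyk : k ≤ y := (le_max_right _ _).trans hy
      have h1 : B α m₁ y ≤ m₁ + y := by
        have h2 := strictAnti_phi hα hm₁
        rcases hy0.eq_or_lt with h3 | h3
        · rw [← h3, B_of_nonpos hα hm₁ le_rfl]; linarith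
        · have h4 := h2 h3
          simp only at h4
          rw [B_of_nonpos hα hm₁ le_rfl] at h4
          linarith
      simp only [hψ]
      rw [max_eq_left (by linarith)]
      nlinarith [sq_nonneg (y - k - 1)]
    · apply tendsto_atTop_add_const_left
      exact tendsto_atTop_add_const_right _ _ tendsto_id
  have hbot : Tendsto ψ atBot atBot := by
    have hkpos : 0 < k := K_pos hα hm₁ hm₂
    apply tendsto_atBot_mono' (f₁ := fun y => y - m₁) (f₂ := ψ) atBot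
    · filter_upwards [eventually_le_atBot (min 0 k)] with y hy
      have hy0 : y ≤ 0 := hy.trans (min_le_left _ _)
      have hyk : y ≤ k := hy.trans (min_le_right _ _)
      simp only [hψ]
      rw [max_eq_right (by linarith), B_of_nonpos hα hm₁ hy0]
      norm_num
    · exact tendsto_atBot_add_const_right _ _ tendsto_id
  have hsurj : Function.Surjective ψ := hcont.surjective htop hbot
  set e := StrictMono.orderIsoOfSurjective ψ hmono hsurj with he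
  have hψk : ψ k = k - (m₁ + m₂) := by
    simp only [hψ, sub_self, max_self]
    rw [B_K hα hm₁ hm₂]; ring
  refine ⟨e.symm, e.symm.continuous, e.symm.strictMono, ?_, ?_⟩
  · rw [← hψk]
    exact e.symm_apply_apply k
  intro s hs
  have h1 : ψ (e.symm s) = s := e.apply_symm_apply s
  have h2 : e.symm s < k := by
    rw [← hmono.lt_iff_lt, h1, hψk]; exact hs
  have h3 : ∀ y, y ≤ k → ψ y = y - B α m₁ y := by
    intro y hy
    simp only [hψ]
    rw [max_eq_right (by linarith)]; ring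
  refine ⟨h2, ?_, ?_⟩
  · rw [h3 _ h2.le] at h1
    linarith
  · apply HasDerivAt.of_local_left_inverse (f := ψ)
    · exact e.symm.continuous.continuousAt
    · have h4 := (hasDerivAt_id (e.symm s)).sub (hasDerivAt_B hα hm₁ (e.symm s))
      apply h4.congr_of_eventuallyEq
      filter_upwards [Iio_mem_nhds h2] with y hy
      exact h3 y (le_of_lt hy)
    · have := v_lt_one hα hm₁ (e.symm s)
      intro h5
      linarith
    · exact Filter.Eventually.of_forall (fun y => e.apply_symm_apply y)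

omit hm₂ in
lemma mass_left {S₁ S₂ : ℝ → ℝ} {t ρ : ℝ} (ht : 0 < t) (hρ0 : 0 ≤ ρ) (h1 : ρ ≤ ρ₁)
    (h2 : ρ₁ < S₁ t) : mass α ρ₁ ρ₂ m₁ S₁ S₂ t ρ = 0 := by
  rw [mass_eq hα hm₁ ht hρ0]
  have e1 : Ioc 0 ρ ∩ Ioo ρ₁ (S₁ t) = ∅ := by
    ext x
    simp only [mem_inter_iff, mem_Ioc, mem_Ioo, mem_empty_iff_false, iff_false]
    rintro ⟨⟨_, h3⟩, h4, _⟩
    linarith
  have e2 : Ioc 0 ρ ∩ Ioo (S₁ t) (S₂ t) = ∅ := by
    ext x
    simp only [mem_inter_iff, mem_Ioc, mem_Ioo, mem_empty_iff_false, iff_false]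
    rintro ⟨⟨_, h3⟩, h4, _⟩
    linarith
  rw [e1, e2]
  simp

lemma tau_lt_iff_of_lt (hρ : ρ₁ < ρ₂) {t : ℝ} (ht : 0 < t)
    (htT : t < mergingTime α ρ₁ ρ₂ m₁ m₂) :
    -((ρ₂ - ρ₁) / tau α t) < K α m₁ m₂ - (m₁ + m₂) := by
  have h1 := tau_strictMono hα ht.le htT
  rw [tau_mergingTime hα hm₁ hm₂ hρ] at h1
  have hτ := tau_pos hα ht
  have hK := K_lt hα hm₁ hm₂
  rw [lt_div_iff₀ (by linarith)] at h1
  have h2 : m₁ + m₂ - K α m₁ m₂ < (ρ₂ - ρ₁) / tau α t := by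
    rw [lt_div_iff₀ hτ]; linarith
  linarith

theorem exists_twoBump (hρ₁ : 0 < ρ₁) (hρ : ρ₁ < ρ₂) :
    ∃ S₁ S₂ : ℝ → ℝ, IsTwoBump α ρ₁ ρ₂ m₁ m₂ S₁ S₂ := by
  obtain ⟨Ψ, hΨc, hΨm, hΨk, hΨ⟩ := exists_inverse hα hm₁ hm₂
  set k := K α m₁ m₂ with hk
  set M := m₁ + m₂ with hM
  set T := mergingTime α ρ₁ ρ₂ m₁ m₂ with hT
  have hk0 : 0 < k := K_pos hα hm₁ hm₂
  have hkM : k < M := K_lt hα hm₁ hm₂
  have hBk : B α m₁ k = M := B_K hα hm₁ hm₂
  have hT0 : 0 < T := mergingTime_pos hα hm₁ hm₂ hρ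
  have hα0 : 0 < α := by linarith
  have hd : 0 < ρ₂ - ρ₁ := by linarith
  set y : ℝ → ℝ := fun t => min (Ψ (-((ρ₂ - ρ₁) / tau α t))) k with hy
  set S₁ : ℝ → ℝ := fun t => ρ₁ + tau α t * B α m₁ (y t) with hS₁
  set S₂ : ℝ → ℝ := fun t => max (ρ₂ + k * tau α t) (ρ₁ + M * tau α t) with hS₂
  have htau0 : tau α 0 = 0 := by
    unfold tau
    rw [mul_zero, Real.zero_rpow (by positivity)]
  have htauc : Continuous (tau α) := by
    unfold tau
    apply Continuous.rpow_const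
    · exact (continuous_const.mul continuous_id)
    · intro x; right; positivity
  have hBy1 : ∀ t, B α m₁ (y t) ≤ M := by
    intro t
    rw [← hBk]
    exact B_mono hα hm₁ (min_le_right _ _)
  have hBy0 : ∀ t, 0 < B α m₁ (y t) := fun t => B_pos hα hm₁ _
  have htT : ∀ t, 0 < t → t < T → y t = Ψ (-((ρ₂ - ρ₁) / tau α t)) ∧ y t < k ∧
      B α m₁ (y t) - y t = (ρ₂ - ρ₁) / tau α t := by
    intro t ht htT
    obtain ⟨h1, h2, -⟩ := hΨ _ (tau_lt_iff_of_lt hα hm₁ hm₂ hρ ht htT)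
    have h3 : y t = Ψ (-((ρ₂ - ρ₁) / tau α t)) := min_eq_left h1.le
    refine ⟨h3, ?_, ?_⟩
    · rw [h3]; exact h1
    · rw [h3, h2]; ring
  have hS₁lt : ∀ t, 0 < t → t < T → S₁ t = ρ₂ + tau α t * y t := by
    intro t ht htT'
    obtain ⟨-, -, h3⟩ := htT t ht htT'
    have hτ := tau_pos hα ht
    have h4 : B α m₁ (y t) = y t + (ρ₂ - ρ₁) / tau α t := by linarith
    simp only [hS₁]
    rw [h4]
    field_simp
    ring
  have hS₂lt : ∀ t, 0 ≤ t → t < T → S₂ t = ρ₂ + k * tau α t := by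
    intro t ht htT'
    have h1 := tau_strictMono hα ht htT'
    rw [hT, tau_mergingTime hα hm₁ hm₂ hρ, lt_div_iff₀ (by linarith)] at h1
    simp only [hS₂]
    apply max_eq_left
    linarith
  have hge : ∀ t, T ≤ t → S₁ t = S₂ t := by
    intro t ht
    have ht0 : 0 < t := hT0.trans_le ht
    have hτ := tau_pos hα ht0
    have h1 : tau α T ≤ tau α t := by
      rcases ht.eq_or_lt with h2 | h2
      · rw [h2]
      · exact (tau_strictMono hα hT0.le h2).le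
    rw [hT, tau_mergingTime hα hm₁ hm₂ hρ, div_le_iff₀ (by linarith)] at h1
    have h2 : k ≤ Ψ (-((ρ₂ - ρ₁) / tau α t)) := by
      have hs : k - M ≤ -((ρ₂ - ρ₁) / tau α t) := by
        have : (ρ₂ - ρ₁) / tau α t ≤ M - k := by
          rw [div_le_iff₀ hτ]; linarith
        linarith
      have := hΨm.monotone hs
      rwa [hΨk] at this
    have h3 : y t = k := min_eq_right h2
    simp only [hS₁, hS₂]
    rw [h3, hBk, max_eq_right]
    · ring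
    · linarith
  have hS₁gt : ∀ t, 0 < t → ρ₁ < S₁ t := by
    intro t ht
    have := mul_pos (tau_pos hα ht) (hBy0 t)
    simp only [hS₁]
    linarith
  have hS₂gt : ∀ t, 0 < t → ρ₂ < S₂ t := by
    intro t ht
    have h1 := mul_pos hk0 (tau_pos hα ht)
    have h2 : ρ₂ + k * tau α t ≤ S₂ t := le_max_left _ _
    linarith
  have hlt : ∀ t, 0 < t → t < T → S₁ t < S₂ t := by
    intro t ht htT'
    rw [hS₁lt t ht htT', hS₂lt t ht.le htT']
    have := mul_lt_mul_of_pos_left (htT t ht htT').2.1 (tau_pos hα ht)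
    linarith
  have hyc : ∀ t, 0 < t → ContinuousAt y t := by
    intro t ht
    have hτ := tau_pos hα ht
    have h1 : ContinuousAt (fun t => Ψ (-((ρ₂ - ρ₁) / tau α t))) t := by
      apply ContinuousAt.comp hΨc.continuousAt
      exact (continuousAt_const.div htauc.continuousAt hτ.ne').neg
    exact Filter.Tendsto.min h1 tendsto_const_nhds
  have hS₁c : ∀ t, 0 < t → ContinuousAt S₁ t := by
    intro t ht
    apply continuousAt_const.add
    exact htauc.continuousAt.mul (ContinuousAt.comp (continuous_B hα hm₁).continuousAt (hyc t ht))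
  have hS₂c : Continuous S₂ :=
    (continuous_const.add (continuous_const.mul htauc)).max
      (continuous_const.add (continuous_const.mul htauc))
  have hS₁0 : Tendsto S₁ (𝓝[≥] 0) (𝓝 ρ₁) := by
    have h1 : Tendsto (fun t => tau α t * B α m₁ (y t)) (𝓝[≥] 0) (𝓝 0) := by
      have h2 : Tendsto (fun t => tau α t * M) (𝓝[≥] 0) (𝓝 0) := by
        have := (htauc.tendsto 0).mul_const M
        rw [htau0, zero_mul] at this
        exact this.mono_left nhdsWithin_le_nhds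
      apply squeeze_zero' _ _ h2
      · filter_upwards [self_mem_nhdsWithin] with t ht
        have ht' : 0 ≤ t := ht
        have : 0 ≤ tau α t := by unfold tau; positivity
        exact mul_nonneg this (hBy0 t).le
      · filter_upwards [self_mem_nhdsWithin] with t ht
        have ht' : 0 ≤ t := ht
        have : 0 ≤ tau α t := by unfold tau; positivity
        exact mul_le_mul_of_nonneg_left (hBy1 t) this
    have h3 := h1.const_add ρ₁
    rw [add_zero] at h3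
    exact h3
  have hS₁init : S₁ 0 = ρ₁ := by
    simp only [hS₁]; rw [htau0]; ring
  have hS₂init : S₂ 0 = ρ₂ := by
    simp only [hS₂]; rw [htau0, mul_zero, mul_zero, add_zero, add_zero]
    exact max_eq_left hρ.le
  have hltT : ∀ t, 0 < t → (∀ s ∈ Icc 0 t, S₁ s < S₂ s) → t < T := by
    intro t ht hun
    by_contra hcon
    have := hun T ⟨hT0.le, not_lt.1 hcon⟩
    rw [hge T le_rfl] at this
    exact lt_irrefl _ this
  have hA : ∀ t, 0 < t → (S₁ t - ρ₁) / tau α t = B α m₁ (y t) := by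
    intro t ht
    have hτ := tau_pos hα ht
    simp only [hS₁]
    field_simp
    ring
  have hY : ∀ t, 0 < t → t < T → (S₁ t - ρ₂) / tau α t = y t := by
    intro t ht htT'
    have hτ := tau_pos hα ht
    rw [hS₁lt t ht htT']
    field_simp
    ring
  have hY₂ : ∀ t, 0 < t → t < T → (S₂ t - ρ₂) / tau α t = k := by
    intro t ht htT'
    have hτ := tau_pos hα ht
    rw [hS₂lt t ht.le htT']
    field_simp
    ring
  refine ⟨S₁, S₂, ⟨?_, hS₂c.continuousOn, hS₁init, hS₂init, hS₁gt, hS₂gt, ?_, ?_, ?_, ?_⟩⟩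
  · -- continuity of S₁
    intro t ht
    have ht' : 0 ≤ t := ht
    rcases ht'.eq_or_lt with h0 | h0
    · rw [← h0, ContinuousWithinAt, hS₁init]
      exact hS₁0
    · exact (hS₁c t h0).continuousWithinAt
  · -- order
    intro t ht
    rcases ht.eq_or_lt with h0 | h0
    · rw [← h0, hS₁init, hS₂init]; exact hρ.le
    · rcases lt_or_ge t T with h1 | h1
      · exact (hlt t h0 h1).le
      · exact (hge t h1).le
  · -- Rankine–Hugoniot for S₁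
    intro t ht hun
    have htT' := hltT t ht hun
    have hτ := tau_pos hα ht
    refine ⟨(tau α t)⁻¹, uf α ρ₂ m₁ t (S₁ t), tendsto_left₁ hα hm₁ ht (hS₁gt t ht),
      tendsto_right₁ hα hm₁ ht (hlt t ht htT'), ?_, ?_⟩
    · intro heq
      unfold uf at heq
      have h1 := v_lt_one hα hm₁ ((S₁ t - ρ₂) / tau α t)
      have h2 := mul_lt_mul_of_pos_left h1 (inv_pos.2 hτ)
      rw [← heq, mul_one] at h2
      exact lt_irrefl _ h2
    · rw [slope₁ hα hm₁ ht (hS₁gt t ht),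
        mass_mid hα hm₁ ht hρ₁ (hS₁gt t ht) le_rfl (hlt t ht htT'), add_sub_cancel_right,
        hA t ht, hY t ht htT']
      have hder : HasDerivAt (fun s => ρ₂ + tau α s * Ψ (-((ρ₂ - ρ₁) / tau α s)))
          (tau α t ^ (1 - α) * Ψ (-((ρ₂ - ρ₁) / tau α t)) + tau α t *
            ((1 - v α m₁ (Ψ (-((ρ₂ - ρ₁) / tau α t))))⁻¹ *
              ((ρ₂ - ρ₁) * tau α t ^ (1 - α) / tau α t ^ 2))) t := by
        have hT' := hasDerivAt_tau hα ht
        have hin : HasDerivAt (fun s => -((ρ₂ - ρ₁) / tau α s))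
            ((ρ₂ - ρ₁) * tau α t ^ (1 - α) / tau α t ^ 2) t := by
          have h1 := ((hasDerivAt_const t (ρ₂ - ρ₁)).div hT' hτ.ne').neg
          refine h1.congr_deriv ?_
          ring
        have hout := (hΨ _ (tau_lt_iff_of_lt hα hm₁ hm₂ hρ ht htT')).2.2
        exact (hT'.mul (hout.comp t hin)).const_add ρ₂
      have hev : S₁ =ᶠ[𝓝 t] fun s => ρ₂ + tau α s * Ψ (-((ρ₂ - ρ₁) / tau α s)) := by
        filter_upwards [Ioo_mem_nhds ht htT'] with s hs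
        rw [hS₁lt s hs.1 hs.2, (htT s hs.1 hs.2).1]
      refine (hder.congr_of_eventuallyEq hev).congr_deriv ?_
      obtain ⟨hy1, hy2, hy3⟩ := htT t ht htT'
      rw [← hy1]
      have hvm := v_mul hα hm₁ (y t)
      have hv1 := v_lt_one hα hm₁ (y t)
      have hv2 : 1 - v α m₁ (y t) ≠ 0 := by linarith
      have hd' : ρ₂ - ρ₁ = (B α m₁ (y t) - y t) * tau α t := by
        rw [hy3]; field_simp
      rw [hd']
      generalize v α m₁ (y t) ^ α = wa at *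
      generalize v α m₁ (y t) = w at *
      generalize B α m₁ (y t) = b at *
      generalize y t = z at *
      field_simp
      linear_combination (-1 : ℝ) * hvm
  · -- Rankine–Hugoniot for S₂
    intro t ht hun
    have htT' := hltT t ht hun
    have hτ := tau_pos hα ht
    refine ⟨uf α ρ₂ m₁ t (S₂ t), 0, tendsto_left₂ hα hm₁ ht (hlt t ht htT'),
      tendsto_right₂ hα hm₁ ht (hlt t ht htT'), (uf_pos hα hm₁ ht (hS₂gt t ht)).ne', ?_⟩
    rw [slope₂ hα hm₁ ht (hS₂gt t ht),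
      mass_right hα hm₁ ht hρ₁ (hS₁gt t ht) (hlt t ht htT').le le_rfl,
      hA t ht, hY t ht htT', hY₂ t ht htT', hBk]
    have hder : HasDerivAt (fun s => ρ₂ + k * tau α s) (k * tau α t ^ (1 - α)) t :=
      ((hasDerivAt_tau hα ht).const_mul k).const_add ρ₂
    have hev : S₂ =ᶠ[𝓝 t] fun s => ρ₂ + k * tau α s := by
      filter_upwards [Ioo_mem_nhds ht htT'] with s hs
      exact hS₂lt s hs.1.le hs.2
    refine (hder.congr_of_eventuallyEq hev).congr_deriv ?_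
    have hM0 : M ≠ 0 := by linarith
    field_simp
    ring
  · -- initial mass
    intro ρ hρ0 hne₁ hne₂
    have hS₁0' : Tendsto S₁ (𝓝[>] 0) (𝓝 ρ₁) :=
      hS₁0.mono_left (nhdsWithin_mono _ Ioi_subset_Ici_self)
    have hS₂0' : Tendsto S₂ (𝓝[>] 0) (𝓝 ρ₂) := by
      have := hS₂c.tendsto 0
      rw [hS₂init] at this
      exact this.mono_left nhdsWithin_le_nhds
    have evT : ∀ᶠ t in 𝓝[>] (0 : ℝ), 0 < t ∧ t < T := by
      filter_upwards [Ioo_mem_nhdsGT hT0] with t ht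
      exact ht
    rcases lt_or_gt_of_ne hne₁ with h1 | h1
    · rw [if_neg (not_le.2 h1), if_neg (not_le.2 (h1.trans hρ)), add_zero]
      apply tendsto_const_nhds.congr'
      filter_upwards [evT] with t ht
      exact (mass_left hα hm₁ ht.1 hρ0.le h1.le (hS₁gt t ht.1)).symm
    · have evS₁ : ∀ᶠ t in 𝓝[>] (0 : ℝ), S₁ t < ρ := hS₁0'.eventually_lt_const h1
      have evy : ∀ᶠ t in 𝓝[>] (0 : ℝ), S₁ t < ρ₂ := hS₁0'.eventually_lt_const hρ
      rcases lt_or_gt_of_ne hne₂ with h2 | h2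
      · rw [if_pos h1.le, if_neg (not_le.2 h2), add_zero]
        apply tendsto_const_nhds.congr'
        filter_upwards [evT, evS₁, evy] with t ht ht1 ht2
        have hτ := tau_pos hα ht.1
        rw [mass_mid hα hm₁ ht.1 hρ₁ (hS₁gt t ht.1) ht1.le (h2.trans (hS₂gt t ht.1)), hA t ht.1,
          hY t ht.1 ht.2, B_of_nonpos hα hm₁ (y := (ρ - ρ₂) / tau α t)
            (div_nonpos_of_nonpos_of_nonneg (by linarith) hτ.le)]
        ring
      · rw [if_pos h1.le, if_pos h2.le]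
        apply tendsto_const_nhds.congr'
        have evS₂ : ∀ᶠ t in 𝓝[>] (0 : ℝ), S₂ t < ρ := hS₂0'.eventually_lt_const h2
        filter_upwards [evT, evS₂] with t ht ht1
        rw [mass_right hα hm₁ ht.1 hρ₁ (hS₁gt t ht.1) (hlt t ht.1 ht.2).le ht1.le, hA t ht.1,
          hY t ht.1 ht.2, hY₂ t ht.1 ht.2, hBk]
        ring

end

/-- **Finite-time merging of the two shocks.** For every `α > 1`, `0 < ρ₁ < ρ₂`, `m₁, m₂ > 0` the
two-bump shock curves exist, and any such pair of curves stays apart before the explicit time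
`mergingTime` and meets at that time, when the density is the vortex (constant on its support). -/
theorem result (α ρ₁ ρ₂ m₁ m₂ : ℝ) (hα : 1 < α) (hρ₁ : 0 < ρ₁) (hρ : ρ₁ < ρ₂) (hm₁ : 0 < m₁)
    (hm₂ : 0 < m₂) :
    (∃ S₁ S₂ : ℝ → ℝ, IsTwoBump α ρ₁ ρ₂ m₁ m₂ S₁ S₂) ∧ 0 < mergingTime α ρ₁ ρ₂ m₁ m₂ ∧
    ∀ S₁ S₂ : ℝ → ℝ, IsTwoBump α ρ₁ ρ₂ m₁ m₂ S₁ S₂ →
      (∀ t, 0 ≤ t → t < mergingTime α ρ₁ ρ₂ m₁ m₂ → S₁ t < S₂ t) ∧
      S₁ (mergingTime α ρ₁ ρ₂ m₁ m₂) = S₂ (mergingTime α ρ₁ ρ₂ m₁ m₂) ∧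
      ∀ ρ, density α ρ₁ ρ₂ m₁ S₁ S₂ (mergingTime α ρ₁ ρ₂ m₁ m₂) ρ =
        if ρ₁ < ρ ∧ ρ < S₁ (mergingTime α ρ₁ ρ₂ m₁ m₂) then
          vortexDensity α (mergingTime α ρ₁ ρ₂ m₁ m₂) else 0 := by
  refine ⟨exists_twoBump hα hm₁ hm₂ hρ₁ hρ, mergingTime_pos hα hm₁ hm₂ hρ, ?_⟩
  intro S₁ S₂ h
  obtain ⟨h1, h2⟩ := merging hα hρ₁ hρ hm₁ hm₂ h
  refine ⟨h1, h2, ?_⟩
  intro ρ
  unfold density
  rw [← h2]
  split_ifs with h3 h4
  · rfl
  · exact absurd h4.2.2 (not_lt.2 h4.2.1.le)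
  · rfl

end Pool.Agent.Results.MP_5288f0_an.Merging
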